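import Pool.Agent.TH92.MMS.Parts

/-!
Maximin shares with additive valuations: for every `n ≥ 5` an instance with `n` agents and
`2 n + 3` goods in which no allocation gives every agent more than a fraction
`1 - 1 / max (4 n + 8) (2 n + 29)` of her maximin share.
-/

set_option autoImplicit false

namespace Pool.Agent.Results.MP_5049a2_lc.AllN

open Pool.Agent.TH92.MMS

theorem result (n : ℕ) (hn : 5 ≤ n) :
    (∃ v : Fin n → Fin (2 * n + 3) → ℝ, (∀ i g, 0 < v i g) ∧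
      ∀ α : ℝ, 1 - 1 / max (4 * (n : ℝ) + 8) (2 * n + 29) < α → ∀ A, ¬ IsAlphaMMS α v A) ∧
    alphaStar n ≤ 1 - 1 / max (4 * (n : ℝ) + 8) (2 * n + 29) := by
  obtain ⟨k, rfl⟩ := Nat.exists_eq_add_of_le' (le_trans (by norm_num : 4 ≤ 5) hn)
  have h := Family.bad_instance (k := k) (by omega)
  have h0 := Family.bound_nonneg k
  have e1 : 4 * ((k + 4 : ℕ) : ℝ) + 8 = 4 * (k : ℝ) + 24 := by push_cast; ring
  have e2 : 2 * ((k + 4 : ℕ) : ℝ) + 29 = 2 * (k : ℝ) + 37 := by push_cast; ring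
  rw [e1, e2]
  exact ⟨h, alphaStar_le _ h0 h⟩

end Pool.Agent.Results.MP_5049a2_lc.AllN
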