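import Mathlib

/-!
Maximin shares with additive valuations: an instance with four agents and eleven goods in which no
allocation gives every agent more than `20/21` of her maximin share.
-/

set_option autoImplicit false

namespace Pool.Agent.Results.MP_5049a2_lc.FourAgents

/-- The value of bundle `j` of the allocation `A` of the `m` goods to `n` agents, for the additive
valuation with values `v`. -/
noncomputable def bundleVal {n m : ℕ} (v : Fin m → ℝ) (A : Fin m → Fin n) (j : Fin n) : ℝ :=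
  ∑ g, if A g = j then v g else 0

/-- The maximin share of an agent with values `v` among `n` agents. -/
noncomputable def mms (n : ℕ) {m : ℕ} (v : Fin m → ℝ) : ℝ :=
  ⨆ P : Fin m → Fin n, ⨅ j, bundleVal v P j

/-- The allocation `A` (agent `i` gets bundle `i`) is `α`-MMS for the valuations `v`. -/
def IsAlphaMMS {n m : ℕ} (α : ℝ) (v : Fin n → Fin m → ℝ) (A : Fin m → Fin n) : Prop :=
  ∀ i, α * mms n (v i) ≤ bundleVal (v i) A i

/-- Every additive instance with `n` agents admits an `α`-MMS allocation. -/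
def Guaranteed (n : ℕ) (α : ℝ) : Prop :=
  ∀ (m : ℕ) (v : Fin n → Fin m → ℝ), (∀ i g, 0 ≤ v i g) → ∃ A, IsAlphaMMS α v A

/-- The constant `α*(n)`. -/
noncomputable def alphaStar (n : ℕ) : ℝ :=
  sSup {α : ℝ | 0 < α ∧ α ≤ 1 ∧ Guaranteed n α}

/-- The constant `α*`, the infimum of all `α*(n)` with `n ≥ 2`. -/
noncomputable def alphaInf : ℝ :=
  ⨅ n : {n : ℕ // 2 ≤ n}, alphaStar n

/-- `a` is a bit mask of sums, `s` the total: some sum `t` in the mask has `k ≤ t` and
`k ≤ s - t`. -/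
def split (a s k : ℕ) : Bool :=
  decide (2 * k ≤ s) && ((a >>> k) % 2 ^ (s + 1 - 2 * k) != 0)

theorem split_of {a s k t u : ℕ} (ha : a.testBit t = true) (hs : s = t + u) (ht : k ≤ t)
    (hu : k ≤ u) : split a s k = true := by
  unfold split
  rw [Bool.and_eq_true]
  refine ⟨decide_eq_true (by omega), ?_⟩
  rw [bne_iff_ne]
  intro h
  have h1 : ((a >>> k) % 2 ^ (s + 1 - 2 * k)).testBit (t - k) = true := by
    rw [Nat.testBit_mod_two_pow, Nat.testBit_shiftRight, Nat.add_sub_cancel' ht, ha]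
    simp only [Bool.and_true, decide_eq_true_eq]
    omega
  rw [h] at h1
  simp at h1

/-- Exhaustive check over all ways to give each good to the first or to the second pair of
agents; the masks `a`, `b` collect the possible values of the bundle of the first agent of each
pair. -/
def check (k l : ℕ) : List (ℕ × ℕ) → ℕ → ℕ → ℕ → ℕ → Bool
  | [], a, s, b, t => !(split a s k && split b t l)
  | x :: xs, a, s, b, t =>
    check k l xs (a ||| (a <<< x.1)) (s + x.1) b t &&
    check k l xs a s (b ||| (b <<< x.2)) (t + x.2)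

theorem testBit_left {a t : ℕ} (r : ℕ) (h : a.testBit t = true) :
    (a ||| (a <<< r)).testBit t = true := by
  rw [Nat.testBit_or, h, Bool.true_or]

theorem testBit_right {a t : ℕ} (r : ℕ) (h : a.testBit t = true) :
    (a ||| (a <<< r)).testBit (t + r) = true := by
  rw [Nat.testBit_or, Nat.testBit_shiftLeft]
  simp [h]

/-- Sum of the first values of the goods of the list with label `j`. -/
def sumL (f : ℕ × ℕ → ℕ) (j : Fin 4) : List ((ℕ × ℕ) × Fin 4) → ℕ
  | [] => 0
  | x :: xs => (if x.2 = j then f x.1 else 0) + sumL f j xs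

theorem fin4_cases : ∀ j : Fin 4, j = 0 ∨ j = 1 ∨ j = 2 ∨ j = 3 := by decide

theorem check_sound (k l : ℕ) : ∀ (xs : List ((ℕ × ℕ) × Fin 4)) (a s b t : ℕ),
    check k l (xs.map Prod.fst) a s b t = true →
    ∀ r0 r1 c0 c1 : ℕ, a.testBit r0 = true → s = r0 + r1 → b.testBit c0 = true → t = c0 + c1 →
    ¬ (k ≤ r0 + sumL Prod.fst 0 xs ∧ k ≤ r1 + sumL Prod.fst 1 xs ∧
      l ≤ c0 + sumL Prod.snd 2 xs ∧ l ≤ c1 + sumL Prod.snd 3 xs)
  | [], a, s, b, t => by
    intro h r0 r1 c0 c1 ha hs hb ht ⟨h0, h1, h2, h3⟩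
    simp only [sumL, add_zero] at h0 h1 h2 h3
    simp only [List.map_nil, check] at h
    rw [split_of ha hs h0 h1, split_of hb ht h2 h3] at h
    simp at h
  | (y, j) :: xs, a, s, b, t => by
    intro h r0 r1 c0 c1 ha hs hb ht ⟨h0, h1, h2, h3⟩
    simp only [List.map_cons, check, Bool.and_eq_true] at h
    obtain ⟨hl, hr⟩ := h
    simp only [sumL] at h0 h1 h2 h3
    rcases fin4_cases j with rfl | rfl | rfl | rfl
    · refine check_sound k l xs _ _ _ _ hl (r0 + y.1) r1 c0 c1 (testBit_right _ ha) (by omega) hb ht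
        ⟨?_, ?_, ?_, ?_⟩ <;> simp at h0 h1 h2 h3 ⊢ <;> omega
    · refine check_sound k l xs _ _ _ _ hl r0 (r1 + y.1) c0 c1 (testBit_left _ ha) (by omega) hb ht
        ⟨?_, ?_, ?_, ?_⟩ <;> simp at h0 h1 h2 h3 ⊢ <;> omega
    · refine check_sound k l xs _ _ _ _ hr r0 r1 (c0 + y.2) c1 ha hs (testBit_right _ hb) (by omega)
        ⟨?_, ?_, ?_, ?_⟩ <;> simp at h0 h1 h2 h3 ⊢ <;> omega
    · refine check_sound k l xs _ _ _ _ hr r0 r1 c0 (c1 + y.2) ha hs (testBit_left _ hb) (by omega)
        ⟨?_, ?_, ?_, ?_⟩ <;> simp at h0 h1 h2 h3 ⊢ <;> omega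

/-- The values of the eleven goods for agents 1 and 2 (first component) and for agents 3 and 4
(second component). -/
def goods : Fin 11 → ℕ × ℕ :=
  ![(3, 5), (17, 13), (1, 1), (7, 7), (7, 6), (18, 18), (10, 9), (7, 6), (1, 1), (10, 9), (3, 5)]

theorem goods_check : check 21 20
    [(3, 5), (17, 13), (1, 1), (7, 7), (7, 6), (18, 18), (10, 9), (7, 6), (1, 1), (10, 9), (3, 5)]
    1 0 1 0 = true := by
  decide +kernel

/-- No allocation gives agents 1, 2 value at least 21 and agents 3, 4 value at least 20. -/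
theorem no_alloc (A : Fin 11 → Fin 4) :
    ¬ (21 ≤ (∑ g, if A g = 0 then (goods g).1 else 0) ∧
      21 ≤ (∑ g, if A g = 1 then (goods g).1 else 0) ∧
      20 ≤ (∑ g, if A g = 2 then (goods g).2 else 0) ∧
      20 ≤ (∑ g, if A g = 3 then (goods g).2 else 0)) := by
  have h := check_sound 21 20 [((3, 5), A 0), ((17, 13), A 1), ((1, 1), A 2), ((7, 7), A 3),
    ((7, 6), A 4), ((18, 18), A 5), ((10, 9), A 6), ((7, 6), A 7), ((1, 1), A 8), ((10, 9), A 9),
    ((3, 5), A 10)] 1 0 1 0 goods_check 0 0 0 0 (by decide) rfl (by decide) rfl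
  simpa [sumL, goods, Fin.sum_univ_succ] using h

/-- The valuations of the four agents. -/
noncomputable def val (i : Fin 4) (g : Fin 11) : ℝ :=
  if i = 0 ∨ i = 1 then ((goods g).1 : ℝ) else ((goods g).2 : ℝ)

theorem val_pos (i : Fin 4) (g : Fin 11) : 0 < val i g := by
  unfold val
  split_ifs
  · have h : ∀ g : Fin 11, 0 < (goods g).1 := by decide
    exact_mod_cast h g
  · have h : ∀ g : Fin 11, 0 < (goods g).2 := by decide
    exact_mod_cast h g

/-- A partition bounds the maximin share from below. -/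
theorem le_mms {n m : ℕ} [NeZero n] (v : Fin m → ℝ) (P : Fin m → Fin n) (c : ℝ)
    (h : ∀ j, c ≤ bundleVal v P j) : c ≤ mms n v := by
  have : Nonempty (Fin n) := ⟨0⟩
  refine le_trans (le_ciInf h) ?_
  exact le_ciSup (f := fun P : Fin m → Fin n => ⨅ j, bundleVal v P j)
    (Set.finite_range _).bddAbove P

theorem bundle_cast {n m : ℕ} (f : Fin m → ℕ) (A : Fin m → Fin n) (j : Fin n) :
    bundleVal (fun g => (f g : ℝ)) A j = ((∑ g, if A g = j then f g else 0 : ℕ) : ℝ) := by
  unfold bundleVal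
  push_cast
  exact Finset.sum_congr rfl fun g _ => by split_ifs <;> simp

theorem part1 : ∀ j : Fin 4, 21 ≤ ∑ g : Fin 11,
    if (![1, 3, 3, 0, 0, 1, 2, 0, 2, 2, 3] : Fin 11 → Fin 4) g = j then (goods g).1 else 0 := by
  decide

theorem part2 : ∀ j : Fin 4, 20 ≤ ∑ g : Fin 11,
    if (![2, 0, 1, 0, 2, 1, 2, 3, 1, 3, 3] : Fin 11 → Fin 4) g = j then (goods g).2 else 0 := by
  decide

theorem mms1 : (21 : ℝ) ≤ mms 4 (fun g => ((goods g).1 : ℝ)) :=
  le_mms _ ![1, 3, 3, 0, 0, 1, 2, 0, 2, 2, 3] _ fun j => by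
    rw [bundle_cast]
    exact_mod_cast part1 j

theorem mms2 : (20 : ℝ) ≤ mms 4 (fun g => ((goods g).2 : ℝ)) :=
  le_mms _ ![2, 0, 1, 0, 2, 1, 2, 3, 1, 3, 3] _ fun j => by
    rw [bundle_cast]
    exact_mod_cast part2 j

/-- In this instance no allocation is `α`-MMS for any `α > 20/21`. -/
theorem val_no (α : ℝ) (hα : 20 / 21 < α) (A : Fin 11 → Fin 4) : ¬ IsAlphaMMS α val A := by
  intro h
  have e1 : ∀ i : Fin 4, (i = 0 ∨ i = 1) → val i = fun g => ((goods g).1 : ℝ) := by
    intro i hi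
    funext g
    simp [val, hi]
  have e2 : ∀ i : Fin 4, ¬ (i = 0 ∨ i = 1) → val i = fun g => ((goods g).2 : ℝ) := by
    intro i hi
    funext g
    simp [val, hi]
  have k1 : ∀ i : Fin 4, (i = 0 ∨ i = 1) → 21 ≤ ∑ g, if A g = i then (goods g).1 else 0 := by
    intro i hi
    have h1 := h i
    rw [e1 i hi, bundle_cast] at h1
    have h2 : (20 : ℝ) < ((∑ g, if A g = i then (goods g).1 else 0 : ℕ) : ℝ) := by
      refine lt_of_lt_of_le ?_ h1
      have := mms1
      nlinarith
    have h3 : 20 < ∑ g, if A g = i then (goods g).1 else 0 := by exact_mod_cast h2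
    omega
  have k2 : ∀ i : Fin 4, ¬ (i = 0 ∨ i = 1) → 20 ≤ ∑ g, if A g = i then (goods g).2 else 0 := by
    intro i hi
    have h1 := h i
    rw [e2 i hi, bundle_cast] at h1
    have h2 : (19 : ℝ) < ((∑ g, if A g = i then (goods g).2 else 0 : ℕ) : ℝ) := by
      refine lt_of_lt_of_le ?_ h1
      have := mms2
      nlinarith
    have h3 : 19 < ∑ g, if A g = i then (goods g).2 else 0 := by exact_mod_cast h2
    omega
  exact no_alloc A ⟨k1 0 (by decide), k1 1 (by decide), k2 2 (by decide), k2 3 (by decide)⟩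

theorem alphaStar_nonneg (n : ℕ) : 0 ≤ alphaStar n :=
  Real.sSup_nonneg fun _ hx => hx.1.le

theorem alphaStar_four : alphaStar 4 ≤ 20 / 21 := by
  refine Real.sSup_le (fun α hα => ?_) (by norm_num)
  by_contra hlt
  push Not at hlt
  obtain ⟨A, hA⟩ := hα.2.2 11 val fun i g => (val_pos i g).le
  exact val_no α hlt A hA

theorem alphaInf_le : alphaInf ≤ alphaStar 4 :=
  ciInf_le (f := fun n : {n : ℕ // 2 ≤ n} => alphaStar n)
    ⟨0, by rintro _ ⟨n, rfl⟩; exact alphaStar_nonneg n⟩ ⟨4, by norm_num⟩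

/-- There is an additive instance with four agents and eleven goods (all values positive) such that
for every `α > 20/21` no allocation is `α`-MMS; hence `α* ≤ α*(4) ≤ 20/21`. -/
theorem result :
    (∃ v : Fin 4 → Fin 11 → ℝ, (∀ i g, 0 < v i g) ∧
      ∀ α : ℝ, 20 / 21 < α → ∀ A : Fin 11 → Fin 4, ¬ IsAlphaMMS α v A) ∧
    alphaInf ≤ alphaStar 4 ∧ alphaStar 4 ≤ 20 / 21 :=
  ⟨⟨val, val_pos, val_no⟩, alphaInf_le, alphaStar_four⟩

end Pool.Agent.Results.MP_5049a2_lc.FourAgents
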